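import Pool.Agent.helper92.ISO.SpecC
import Pool.Agent.helper64.PB.Asm

set_option autoImplicit false

open Filter Topology

namespace Pool.Agent.ISO

open Pool.Agent.PB

theorem CIR_var (n : ℕ) (j : Fin n) : Size std (fun x : Fin n → Bool => x j) 0 :=
  ⟨[], Prog.nil, le_refl _, Or.inr ⟨j, rfl⟩⟩

theorem CIR_const (n : ℕ) (b : Bool) : Size std (fun _ : Fin n → Bool => b) 1 := by
  refine ⟨[fun _ => b], ?_, le_refl _, Or.inl (List.mem_singleton.mpr rfl)⟩
  have hb : gConst b ∈ std := by
    cases b <;> simp [std]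
  exact Prog.step (G := std) (n := n) [] (gConst b) (fun i => i.elim0) Prog.nil hb (fun i => i.elim0)

theorem CIR_mono (n s t : ℕ) (f : BF n) (h : Size std f s) (hst : s ≤ t) : Size std f t := by
  obtain ⟨l, h1, h2, h3⟩ := h
  exact ⟨l, h1, h2.trans hst, h3⟩

theorem CIR_gate (g : Gate) (hg : g ∈ std) : Size std g.2 1 := by
  refine ⟨[g.2], ?_, le_refl _, Or.inl (List.mem_singleton.mpr rfl)⟩
  exact Prog.step (G := std) (n := g.1) [] g (fun i x => x i) Prog.nil hg (fun i => Or.inr ⟨i, rfl⟩)

theorem CIR_not (n s : ℕ) (f : BF n) (h : Size std f s) : Size std (fun x => !(f x)) (s + 1) := by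
  have hg : Size std gNot.2 1 := CIR_gate gNot (by simp [std])
  have h2 := pCMP std 1 n gNot.2 (fun _ => f) 1 (fun _ => s) hg (fun _ => h)
  refine CIR_mono n _ _ _ h2 ?_
  simp
  omega

theorem CIR_and (n s t : ℕ) (f g : BF n) (hf : Size std f s) (hg : Size std g t) :
    Size std (fun x => f x && g x) (s + t + 1) := by
  have h1 : Size std gAnd.2 1 := CIR_gate gAnd (by simp [std])
  have h2 := pCMP std 2 n gAnd.2 ![f, g] 1 ![s, t] h1 (by
    intro i
    fin_cases i
    · exact hf
    · exact hg)
  refine CIR_mono n _ _ _ h2 ?_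
  simp [Fin.sum_univ_two]
  omega

theorem CIR_or (n s t : ℕ) (f g : BF n) (hf : Size std f s) (hg : Size std g t) :
    Size std (fun x => f x || g x) (s + t + 1) := by
  have h1 : Size std gOr.2 1 := CIR_gate gOr (by simp [std])
  have h2 := pCMP std 2 n gOr.2 ![f, g] 1 ![s, t] h1 (by
    intro i
    fin_cases i
    · exact hf
    · exact hg)
  refine CIR_mono n _ _ _ h2 ?_
  simp [Fin.sum_univ_two]
  omega

theorem CIR_all (n t : ℕ) : ∀ (N : ℕ) (g : Fin N → BF n) (F : BF n), (∀ i, Size std (g i) t) →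
    (∀ x, F x = true ↔ ∀ i, g i x = true) → Size std F (N * (t + 1) + 1)
  | 0, g, F, hg, hF => by
    have h1 : F = fun _ => true := by
      funext x
      exact (hF x).mpr fun i => i.elim0
    rw [h1]
    exact CIR_mono n _ _ _ (CIR_const n true) (by omega)
  | N + 1, g, F, hg, hF => by
    have h1 := CIR_all n t N (fun i => g i.castSucc) (fun x => decide (∀ i : Fin N, g i.castSucc x = true))
      (fun i => hg _) (fun x => decide_eq_true_iff)
    have h2 := CIR_and n _ _ _ _ h1 (hg (Fin.last N))
    have h3 : F = fun x => decide (∀ i : Fin N, g i.castSucc x = true) && g (Fin.last N) x := by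
      funext x
      rw [Bool.eq_iff_iff, hF x, Fin.forall_fin_succ', Bool.and_eq_true, decide_eq_true_iff]
    rw [h3]
    refine CIR_mono n _ _ _ h2 ?_
    nlinarith

theorem CIR_any (n t : ℕ) : ∀ (N : ℕ) (g : Fin N → BF n) (F : BF n), (∀ i, Size std (g i) t) →
    (∀ x, F x = true ↔ ∃ i, g i x = true) → Size std F (N * (t + 1) + 1)
  | 0, g, F, hg, hF => by
    have h1 : F = fun _ => false := by
      funext x
      rw [Bool.eq_false_iff]
      intro h
      obtain ⟨i, _⟩ := (hF x).mp h
      exact i.elim0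
    rw [h1]
    exact CIR_mono n _ _ _ (CIR_const n false) (by omega)
  | N + 1, g, F, hg, hF => by
    have h1 := CIR_any n t N (fun i => g i.castSucc) (fun x => decide (∃ i : Fin N, g i.castSucc x = true))
      (fun i => hg _) (fun x => decide_eq_true_iff)
    have h2 := CIR_or n _ _ _ _ h1 (hg (Fin.last N))
    have h3 : F = fun x => decide (∃ i : Fin N, g i.castSucc x = true) || g (Fin.last N) x := by
      funext x
      rw [Bool.eq_iff_iff, hF x, Fin.exists_fin_succ', Bool.or_eq_true, decide_eq_true_iff]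
    rw [h3]
    refine CIR_mono n _ _ _ h2 ?_
    nlinarith

theorem CIR_proof : CIR_stmt := by
  refine ⟨CIR_var, CIR_const, CIR_mono, CIR_not, fun n s t f g hf hg =>
    ⟨CIR_and n s t f g hf hg, CIR_or n s t f g hf hg⟩, ?_, ?_⟩
  · intro ι _ n t g F hg hF
    refine CIR_all n t (Fintype.card ι) (fun i => g ((Fintype.equivFin ι).symm i)) F (fun i => hg _) fun x => ?_
    rw [hF x]
    constructor
    · intro h i
      exact h _
    · intro h i
      have h2 := h (Fintype.equivFin ι i)
      simpa using h2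
  · intro ι _ n t g F hg hF
    refine CIR_any n t (Fintype.card ι) (fun i => g ((Fintype.equivFin ι).symm i)) F (fun i => hg _) fun x => ?_
    rw [hF x]
    constructor
    · rintro ⟨i, hi⟩
      exact ⟨Fintype.equivFin ι i, by simpa using hi⟩
    · rintro ⟨i, hi⟩
      exact ⟨_, hi⟩

end Pool.Agent.ISO
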