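import Pool.Agent.helper92.ISO.SpecC

set_option autoImplicit false

open Filter Topology

namespace Pool.Agent.ISO

open Pool.Agent.PB

theorem CPL_proof : CPL_stmt := by
  classical
  intro n w M R N k m κ p K W X u hk hM hD
  obtain ⟨_, hT⟩ := hD
  let T : Fin k → Finset (Fin R) := fun i =>
    Finset.univ.filter fun j => W i (Fin.append (enc N X) (encW j (zs K u j))) = true
  have htc : ∀ (i : Fin k) (e0 : Fin M), tcnt K (W i) e0 X u (X e0) = (T i ∩ K e0).card := by
    intro i e0
    unfold tcnt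
    rw [Function.update_eq_self]
    congr 1
    ext j
    simp only [T, Finset.mem_filter, Finset.mem_inter, Finset.mem_univ, true_and]
    exact and_comm
  by_contra hcon
  have h1 : ∀ e0 : Fin M, p * k ≤ ((Finset.univ.filter fun i => Hit κ (T i) (K e0)).card : ℝ) := by
    intro e0
    by_contra h2
    apply hcon
    refine ⟨e0, ?_⟩
    unfold tst
    rw [decide_eq_true_eq]
    have h3 : (Finset.univ.filter fun i => 1 ≤ tcnt K (W i) e0 X u (X e0) ∧ tcnt K (W i) e0 X u (X e0) ≤ κ) =
        Finset.univ.filter fun i => Hit κ (T i) (K e0) := by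
      ext i
      simp only [Finset.mem_filter, Finset.mem_univ, true_and, htc, Hit]
    rw [h3]
    exact not_le.mp h2
  have h4 : (∑ _e0 : Fin M, p * (k : ℝ)) ≤
      ∑ e0 : Fin M, ((Finset.univ.filter fun i => Hit κ (T i) (K e0)).card : ℝ) :=
    Finset.sum_le_sum fun e0 _ => h1 e0
  have h5 : ∑ e0 : Fin M, ((Finset.univ.filter fun i => Hit κ (T i) (K e0)).card : ℝ) =
      ∑ i : Fin k, ((Finset.univ.filter fun e0 => Hit κ (T i) (K e0)).card : ℝ) := by
    simp only [Finset.card_filter, Nat.cast_sum]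
    exact Finset.sum_comm
  have : Nonempty (Fin k) := ⟨⟨0, hk⟩⟩
  have h6 : ∑ i : Fin k, ((Finset.univ.filter fun e0 => Hit κ (T i) (K e0)).card : ℝ) <
      ∑ _i : Fin k, p * (M : ℝ) :=
    Finset.sum_lt_sum_of_nonempty Finset.univ_nonempty fun i _ => hT (T i)
  rw [Finset.sum_const, Finset.card_univ, Fintype.card_fin, nsmul_eq_mul] at h4 h6
  rw [h5] at h4
  have h7 : (M : ℝ) * (p * (k : ℝ)) = (k : ℝ) * (p * (M : ℝ)) := by ring
  linarith

end Pool.Agent.ISO
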